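import Mathlib

/-!
# The six branch points `0, 6, 10, 15, 30, -30`

(From helper12's `TwistsLocalAtTwo`.)
-/

set_option autoImplicit false
set_option linter.all false

namespace Pool.Agent.Zk95.TD

/-- The condition on the branch points: for `i ≠ k` there are `l, l'` different from `i` and `k`, such
that the integer `(e_i - e_l) (e_i - e_l') (e_k - e_l) (e_k - e_l')` is not a square. -/
def CrossRatio {K : Type} (e : K → ℤ) : Prop :=
  ∀ i k, i ≠ k → ∃ l l', l ≠ i ∧ l ≠ k ∧ l' ≠ i ∧ l' ≠ k ∧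
    ¬ IsSquare ((e i - e l) * (e i - e l') * ((e k - e l) * (e k - e l')))

/-- For every `i`, four of the numbers `1 / (e_l - e_i)`, `l ≠ i`, form an arithmetic progression. -/
def Progressions {K : Type} (e : K → ℤ) : Prop :=
  ∀ i, ∃ (l : Fin 4 → K) (z δ : ℚ), δ ≠ 0 ∧ (∀ j, l j ≠ i) ∧
    ∀ j : Fin 4, ((e (l j) : ℚ) - e i)⁻¹ = z + (j : ℕ) * δ

/-- the six branch points of the example of genus 2 -/
def ex : Fin 6 → ℤ := ![0, 6, 10, 15, 30, -30]

lemma not_sq_mod {N : ℤ} (h : N % 7 = 3 ∨ N % 7 = 5 ∨ N % 7 = 6) : ¬ IsSquare N := by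
  rintro ⟨r, rfl⟩
  have h1 : r % 7 = 0 ∨ r % 7 = 1 ∨ r % 7 = 2 ∨ r % 7 = 3 ∨ r % 7 = 4 ∨ r % 7 = 5 ∨ r % 7 = 6 := by
    omega
  rcases h1 with h1 | h1 | h1 | h1 | h1 | h1 | h1 <;>
    rw [Int.mul_emod, h1] at h <;> revert h <;> decide

/-- witnesses for `CrossRatio` -/
def wit : Fin 6 → Fin 6 → Fin 6 × Fin 6 :=
  ![![(0, 0), (2, 3), (1, 3), (1, 2), (1, 5), (1, 2)], ![(2, 3), (0, 0), (0, 3), (0, 2), (0, 2), (0, 2)],
    ![(1, 3), (0, 3), (0, 0), (0, 1), (0, 3), (0, 1)], ![(1, 2), (0, 2), (0, 1), (0, 0), (0, 1), (0, 4)],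
    ![(1, 5), (0, 2), (0, 3), (0, 1), (0, 0), (0, 1)], ![(1, 2), (0, 2), (0, 1), (0, 4), (0, 1), (0, 0)]]

lemma crossRatio_ex : CrossRatio ex := by
  have h : ∀ i k : Fin 6, i ≠ k → (wit i k).1 ≠ i ∧ (wit i k).1 ≠ k ∧ (wit i k).2 ≠ i ∧
      (wit i k).2 ≠ k ∧
      (((ex i - ex (wit i k).1) * (ex i - ex (wit i k).2) *
        ((ex k - ex (wit i k).1) * (ex k - ex (wit i k).2))) % 7 = 3 ∨
      ((ex i - ex (wit i k).1) * (ex i - ex (wit i k).2) *
        ((ex k - ex (wit i k).1) * (ex k - ex (wit i k).2))) % 7 = 5 ∨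
      ((ex i - ex (wit i k).1) * (ex i - ex (wit i k).2) *
        ((ex k - ex (wit i k).1) * (ex k - ex (wit i k).2))) % 7 = 6) := by
    decide
  intro i k hik
  obtain ⟨h1, h2, h3, h4, h5⟩ := h i k hik
  exact ⟨_, _, h1, h2, h3, h4, not_sq_mod h5⟩

lemma progressions_ex : Progressions ex := by
  intro i
  fin_cases i
  · refine ⟨![5, 4, 2, 1], -1 / 30, 1 / 15, by norm_num, by decide, fun j => ?_⟩
    fin_cases j <;> simp [ex] <;> norm_num
  · refine ⟨![0, 5, 3, 2], -1 / 6, 5 / 36, by norm_num, by decide, fun j => ?_⟩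
    fin_cases j <;> simp [ex] <;> norm_num
  · refine ⟨![1, 0, 4, 3], -1 / 4, 3 / 20, by norm_num, by decide, fun j => ?_⟩
    fin_cases j <;> simp [ex] <;> norm_num
  · refine ⟨![2, 1, 5, 4], -1 / 5, 4 / 45, by norm_num, by decide, fun j => ?_⟩
    fin_cases j <;> simp [ex] <;> norm_num
  · refine ⟨![3, 2, 0, 5], -1 / 15, 1 / 60, by norm_num, by decide, fun j => ?_⟩
    fin_cases j <;> simp [ex] <;> norm_num
  · refine ⟨![4, 3, 1, 0], 1 / 60, 1 / 180, by norm_num, by decide, fun j => ?_⟩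
    fin_cases j <;> simp [ex] <;> norm_num

end Pool.Agent.Zk95.TD
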