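import Mathlib
import Pool.Agent.Zk12.TR.Stm2
import Pool.Agent.Zk12.Base2

/-!
# From the abstract main theorem to the geometrically pro-`2` fundamental group of
`d y² = x (x - 6) (x - 10) (x - 15) (x - 30) (x + 30)`
-/

set_option autoImplicit false
set_option linter.all false

open Polynomial FF Pool.Agent.Y157.PS IsDedekindDomain NumberField Pool.Agent.TH954

namespace Pool.Agent.Zk95.TD

open Pool.Agent.Y158.GR Pool.Agent.Zk12 Pool.Agent.Zk12.TR

attribute [-instance] DivisionRing.toRatAlgebra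

noncomputable local instance ratQ2T : Algebra ℚ ℚ_[2] := DivisionRing.toRatAlgebra

section

variable {F Ω : Type} [Field F] [Field Ω] [Algebra ℚ F] [Algebra F Ω] [Algebra ℚ Ω]
  [IsScalarTower ℚ F Ω] [IsAlgClosed Ω] [Algebra.IsAlgebraic F Ω]

/-- the covering field -/
theorem setupT {d : ℚ} (hd0 : d ≠ 0) (x y : F) (hx : Transcendental ℚ x)
    (hF : IntermediateField.adjoin ℚ {x, y} = (⊤ : IntermediateField ℚ F))
    (hxy : algebraMap ℚ F d * y ^ 2 = x * (x - 6) * (x - 10) * (x - 15) * (x - 30) * (x + 30)) :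
    ∃ (δ : algebraicClosure ℚ Ω) (R M : Type) (_ : Field R) (_ : Field M)
      (_ : Algebra (algebraicClosure ℚ Ω) R)
      (_ : Algebra R M) (_ : Algebra (algebraicClosure ℚ Ω) M)
      (_ : IsScalarTower (algebraicClosure ℚ Ω) R M) (x' : R) (Y : M)
      (eqv : M ≃+* geomPro 2 ℚ F Ω), δ ≠ 0 ∧ δ ^ 2 = algebraMap ℚ _ (30 ^ 5 * (d / 30 ^ 5)) ∧
      Cov 2 (algebraicClosure ℚ Ω) R M x' (BK (algebraicClosure ℚ Ω)) Y ∧
      (∀ c : algebraicClosure ℚ Ω, ((eqv (algebraMap (algebraicClosure ℚ Ω) M c) :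
        geomPro 2 ℚ F Ω) : Ω) = (c : Ω)) ∧
      ((eqv (algebraMap R M x') : geomPro 2 ℚ F Ω) : Ω) = algebraMap F Ω x ∧
      ((eqv Y : geomPro 2 ℚ F Ω) : Ω) = (δ : Ω) * algebraMap F Ω y := by
  have hac : IsAlgClosure ℚ (algebraicClosure ℚ Ω) := inferInstance
  have hkb : IsAlgClosed (algebraicClosure ℚ Ω) := hac.1
  haveI : CharZero F := charZero_of_injective_algebraMap (algebraMap ℚ F).injective
  haveI : CharZero Ω := charZero_of_injective_algebraMap (algebraMap ℚ Ω).injective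
  obtain ⟨δ, hδ⟩ := IsAlgClosed.exists_pow_nat_eq
    (algebraMap ℚ (algebraicClosure ℚ Ω) d) (n := 2) (by norm_num)
  have hδ0 : δ ≠ 0 := by
    rintro rfl
    rw [zero_pow two_ne_zero] at hδ
    have h5 := hδ.symm
    rw [_root_.map_eq_zero] at h5
    exact hd0 h5
  haveI : Fact (Nat.Prime 2) := ⟨Nat.prime_two⟩
  obtain ⟨R, M, i1, i2, i3, i4, i5, i6, x', Y, eqv, h1, h2, h3, h4⟩ :=
    glue (ℓ := 2) (Ω := Ω) (BK (algebraicClosure ℚ Ω)) (by rw [BK_card]; norm_num)
      (by rw [BK_card]; norm_num) δ hδ0 x y hx hF (by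
        rw [BK_prod]
        have e0 : ((0 : algebraicClosure ℚ Ω) : Ω) = 0 := rfl
        have e6 : ((6 : algebraicClosure ℚ Ω) : Ω) = 6 := rfl
        have e10 : ((10 : algebraicClosure ℚ Ω) : Ω) = 10 := rfl
        have e15 : ((15 : algebraicClosure ℚ Ω) : Ω) = 15 := rfl
        have e30 : ((30 : algebraicClosure ℚ Ω) : Ω) = 30 := rfl
        have e31 : ((-30 : algebraicClosure ℚ Ω) : Ω) = -30 := rfl
        rw [e0, e6, e10, e15, e30, e31]
        have hδΩ : (δ : Ω) ^ 2 = algebraMap ℚ Ω d := by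
          have := congrArg (algebraMap (algebraicClosure ℚ Ω) Ω) hδ
          rw [map_pow, ← IsScalarTower.algebraMap_apply] at this
          exact this
        have h1 := congrArg (algebraMap F Ω) hxy
        rw [map_mul, map_pow, ← IsScalarTower.algebraMap_apply] at h1
        rw [mul_pow, hδΩ, h1]
        simp only [map_mul, map_sub, map_add, map_ofNat]
        ring)
  refine ⟨δ, R, M, i1, i2, i3, i4, i5, i6, x', Y, eqv, hδ0, ?_, h1, h2, h3, h4⟩
  rw [hδ]
  congr 1
  field_simp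

theorem baseT (hM : S_MAIN) {d : ℚ} (hd0 : d ≠ 0) (x y : F)
    (hx : Transcendental ℚ x)
    (hF : IntermediateField.adjoin ℚ {x, y} = (⊤ : IntermediateField ℚ F))
    (hxy : algebraMap ℚ F d * y ^ 2 = x * (x - 6) * (x - 10) * (x - 15) * (x - 30) * (x + 30))
    {C : Type} [Field C] [Algebra ℚ_[2] C] [Algebra ℚ C] [IsScalarTower ℚ ℚ_[2] C]
    [IsAlgClosure ℚ_[2] C]
    (s : GalSection ℚ F (geomPro 2 ℚ F Ω) (algebraicClosure ℚ Ω))
    (hj : ∀ z, ((s.j z : geomPro 2 ℚ F Ω) : Ω) = (z : Ω)) (p : Plc ℚ (geomPro 2 ℚ F Ω) C)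
    (hpv : s.GivenBy ℚ_[2] p) (q : ℚ) (hq : q ∈ BQ)
    (hpx : p.val (algebraMap F (geomPro 2 ℚ F Ω) x) (algebraMap ℚ C q))
    (hγ : ∀ l ∈ BQ, ∀ l' ∈ BQ, l ≠ q → l' ≠ q → ∀ h : geomPro 2 ℚ F Ω,
      h ^ 2 = algebraMap F (geomPro 2 ℚ F Ω) ((x - algebraMap ℚ F l) * (x - algebraMap ℚ F l') *
        algebraMap ℚ F ((q - l) * (q - l'))) → ∀ σ, s.s σ h = h) :
    ∀ σ z, s.s σ z ∈ p.W ↔ z ∈ p.W := by
  classical
  have hac : IsAlgClosure ℚ (algebraicClosure ℚ Ω) := inferInstance
  have hkb : IsAlgClosed (algebraicClosure ℚ Ω) := hac.1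
  have hch : CharZero (algebraicClosure ℚ Ω) :=
    charZero_of_injective_algebraMap (algebraMap ℚ (algebraicClosure ℚ Ω)).injective
  haveI : CharZero F := charZero_of_injective_algebraMap (algebraMap ℚ F).injective
  haveI : CharZero Ω := charZero_of_injective_algebraMap (algebraMap ℚ Ω).injective
  have hkalg : Algebra.IsAlgebraic ℚ (algebraicClosure ℚ Ω) := inferInstance
  haveI hnor : Normal ℚ (algebraicClosure ℚ Ω) := IsAlgClosure.normal ℚ _
  obtain ⟨δ, R, M, i1, i2, i3, i4, i5, i6, x', Y, eqv, hδ0, hδ, hC, hc, hx', hy'⟩ :=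
    setupT (Ω := Ω) hd0 x y hx hF hxy
  have hcompat := compat_of s hj
  have hSec := sec_of hδ0 hc hx' hy' s.s s.cont hcompat
  set sA := conjSec eqv s.s with hsA
  have hs' : ∀ σ z, eqv (sA σ z) = s.s σ (eqv z) := fun σ z => conjSec_apply eqv s.s σ z
  have hAct := Act.of_sec hSec
  have hcj : ∀ c : algebraicClosure ℚ Ω, eqv (algebraMap (algebraicClosure ℚ Ω) M c) = s.j c :=
    fun c => Subtype.ext ((hc c).trans (hj c).symm)
  have hx0 : eqv (algebraMap R M x') = algebraMap F (geomPro 2 ℚ F Ω) x := Subtype.ext hx'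
  -- the valuation ring
  have hmem : ∀ z : M, z ∈ p.W.comap (eqv : M →+* geomPro 2 ℚ F Ω) ↔ eqv z ∈ p.W :=
    fun z => Iff.rfl
  have hnon : ∀ z : M, z ∈ (p.W.comap (eqv : M →+* geomPro 2 ℚ F Ω)).nonunits ↔
      eqv z ∈ p.W.nonunits := fun z => comap_non eqv p.W z
  have hval0 : ∀ z : geomPro 2 ℚ F Ω, p.val z 0 → z ∈ p.W.nonunits := by
    intro z hz
    rw [nonunits_iff]
    refine ⟨hz.mem, ?_⟩
    by_cases h0 : z = 0
    · exact Or.inl h0
    · right
      intro h1
      obtain ⟨c, hc1⟩ := Plc.val_of_mem h1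
      have h2 := hz.mul hc1
      rw [mul_inv_cancel₀ h0, zero_mul] at h2
      exact zero_ne_one (h2.unique Plc.val_one)
  have he : algebraMap ℚ (algebraicClosure ℚ Ω) q ∈ BK (algebraicClosure ℚ Ω) :=
    mem_BK.2 ⟨q, hq, rfl⟩
  have hxe : p.val (eqv (algebraMap R M x' - algebraMap (algebraicClosure ℚ Ω) M
      (algebraMap ℚ (algebraicClosure ℚ Ω) q))) 0 := by
    rw [map_sub, hx0, hcj]
    have h1 := hpx.sub (iot_val s p (algebraMap ℚ (algebraicClosure ℚ Ω) q))
    rw [(p.iot s.j).commutes, sub_self] at h1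
    exact h1
  have htr : Transcendental (algebraicClosure ℚ Ω) (algebraMap R M x') :=
    (transcendental_algebraMap_iff (algebraMap R M).injective).2 hC.rat.trans
  have hXc : ∀ c : algebraicClosure ℚ Ω, algebraMap R M x' -
      algebraMap (algebraicClosure ℚ Ω) M c ≠ 0 := by
    intro c h0
    apply htr
    rw [sub_eq_zero.1 h0]
    exact isAlgebraic_algebraMap _
  have hne := hXc (algebraMap ℚ (algebraicClosure ℚ Ω) q)
  obtain ⟨W, hWO, -⟩ := hC.loc (p.W.comap (eqv : M →+* geomPro 2 ℚ F Ω)) (fun c => by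
    rw [hmem, hcj]
    exact (iot_val s p c).mem) (by
    intro htop
    have h2 := (hnon _).2 (hval0 _ hxe)
    rw [htop, nonunits_iff] at h2
    rcases h2.2 with h3 | h3
    · exact hne h3
    · exact h3 trivial)
  have hWe : 0 < W.ord (algebraMap R M x' - algebraMap (algebraicClosure ℚ Ω) M
      (algebraMap ℚ (algebraicClosure ℚ Ω) q)) := by
    rw [← O_non_iff W hne, hWO, hnon]
    exact hval0 _ hxe
  have hfin := hM (algebraicClosure ℚ Ω) R M x' Y hC (d / 30 ^ 5) δ
    (div_ne_zero hd0 (by norm_num)) hδ sA hSec C (p.iot s.j) W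
    (algebraMap ℚ (algebraicClosure ℚ Ω) q) he hWe (fun σ hσ => by
      refine fixes_of_O W (sA σ) (σ : _ ≃+* _) (fun b => hAct.const σ b) fun z => ?_
      rw [hWO, hmem, hmem, hs']
      exact given_mem hpv hσ _) (by
      intro l hl l' hl' hlq hlq'
      obtain ⟨m, hm, rfl⟩ := mem_BK.1 hl
      obtain ⟨m', hm', rfl⟩ := mem_BK.1 hl'
      have hmq : m ≠ q := fun h => hlq (by rw [h])
      have hmq' : m' ≠ q := fun h => hlq' (by rw [h])
      obtain ⟨c, hcdef⟩ : ∃ c : algebraicClosure ℚ Ω, c = (algebraMap ℚ (algebraicClosure ℚ Ω) q -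
        algebraMap ℚ (algebraicClosure ℚ Ω) m) * (algebraMap ℚ (algebraicClosure ℚ Ω) q -
        algebraMap ℚ (algebraicClosure ℚ Ω) m') := ⟨_, rfl⟩
      have hc0 : c ≠ 0 := by
        rw [hcdef]
        exact mul_ne_zero (sub_ne_zero.2 (Ne.symm hlq)) (sub_ne_zero.2 (Ne.symm hlq'))
      obtain ⟨g, hg⟩ : ∃ g : M, g = (algebraMap R M x' - algebraMap (algebraicClosure ℚ Ω) M
        (algebraMap ℚ (algebraicClosure ℚ Ω) m)) * (algebraMap R M x' -
        algebraMap (algebraicClosure ℚ Ω) M (algebraMap ℚ (algebraicClosure ℚ Ω) m')) *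
        algebraMap (algebraicClosure ℚ Ω) M c := ⟨_, rfl⟩
      have hcM : algebraMap (algebraicClosure ℚ Ω) M c ≠ 0 := (_root_.map_ne_zero _).2 hc0
      have hg0 : g ≠ 0 := by
        rw [hg]
        exact mul_ne_zero (mul_ne_zero (hXc _) (hXc _)) hcM
      -- even orders
      have hev : ∀ (W : Place (algebraicClosure ℚ Ω) M), ∃ n : ℤ,
          ∀ b ∈ BK (algebraicClosure ℚ Ω), (2 : ℤ) ∣ W.ord (algebraMap R M x' -
            algebraMap (algebraicClosure ℚ Ω) M b) - n := by
        intro W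
        rcases hC.loc' W with ⟨e, he, h1, h2⟩ | ⟨a, ha, h1⟩ | h1
        · refine ⟨0, fun b hb => ?_⟩
          by_cases heb : e = b
          · rw [← heb, h1]; norm_num
          · rw [ord_sub_const (by rw [h1]; norm_num) heb]; norm_num
        · refine ⟨0, fun b hb => ?_⟩
          have hab : a ≠ b := fun h => ha (by rw [h]; exact hb)
          rw [ord_sub_const (by rw [h1]; norm_num) hab]; norm_num
        · refine ⟨-1, fun b hb => ?_⟩
          have hx'0 : algebraMap R M x' ≠ 0 := by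
            intro h0
            rw [h0, W.ord_zero] at h1
            norm_num at h1
          have h3 : W.ord (algebraMap R M x' - algebraMap (algebraicClosure ℚ Ω) M b) = -1 := by
            by_cases hb0 : b = 0
            · rw [hb0, map_zero, sub_zero, h1]
            · rw [sub_eq_add_neg, ← map_neg, (W.ord_add_eq hx'0 ((_root_.map_ne_zero _).2
                (neg_ne_zero.2 hb0)) (by rw [h1, W.ord_const (neg_ne_zero.2 hb0)]; norm_num)).2,
                h1]
          rw [h3]; norm_num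
      obtain ⟨h, hh⟩ := hC.root g hg0 (fun W => by
        obtain ⟨n, hn⟩ := hev W
        have h1 := hn _ hl
        have h2 := hn _ hl'
        rw [hg, W.ord_mul (mul_ne_zero (hXc _) (hXc _)) hcM, W.ord_mul (hXc _) (hXc _),
          W.ord_const hc0]
        push_cast
        omega)
      refine ⟨h, fun σ => ?_, ?_⟩
      · apply eqv.injective
        rw [hs']
        refine hγ m hm m' hm' hmq hmq' (eqv h) ?_ σ
        have hcst : ∀ r : ℚ, eqv (algebraMap (algebraicClosure ℚ Ω) M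
            (algebraMap ℚ (algebraicClosure ℚ Ω) r)) =
            algebraMap F (geomPro 2 ℚ F Ω) (algebraMap ℚ F r) := by
          intro r
          apply Subtype.ext
          rw [hc]
          change algebraMap ℚ Ω r = algebraMap F Ω (algebraMap ℚ F r)
          rw [← IsScalarTower.algebraMap_apply]
        have hcq : c = algebraMap ℚ (algebraicClosure ℚ Ω) ((q - m) * (q - m')) := by
          rw [hcdef, map_mul, map_sub, map_sub]
        rw [← map_pow, hh, hg, hcq, map_mul, map_mul, map_sub, map_sub, hx0, hcst, hcst, hcst,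
          map_mul (algebraMap F (geomPro 2 ℚ F Ω)), map_mul (algebraMap F (geomPro 2 ℚ F Ω)),
          map_sub (algebraMap F (geomPro 2 ℚ F Ω)), map_sub (algebraMap F (geomPro 2 ℚ F Ω))]
      · rw [hh, hg, hcdef])
  intro σ z
  have h3 := O_of_fixes W (sA σ) (hfin σ) (eqv.symm z)
  rw [hWO, hmem, hmem, hs', eqv.apply_symm_apply] at h3
  exact h3

end

end Pool.Agent.Zk95.TD
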