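import Mathlib
import Pool.Agent.Zk95.TD.Base
import Pool.Agent.Zk12.Final9

/-!
# Sections of curves over `d y² = x (x - 6) (x - 10) (x - 15) (x - 30) (x + 30)`
-/

set_option autoImplicit false
set_option linter.all false

open Polynomial FF Pool.Agent.Y157.PS IsDedekindDomain NumberField Pool.Agent.TH954

namespace Pool.Agent.Zk95.TD

open Pool.Agent.Y158.GR Pool.Agent.Zk12 Pool.Agent.Zk12.TR Pool.Agent.Y158.FQ

attribute [-instance] DivisionRing.toRatAlgebra SubfieldClass.instSMulRat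
attribute [local instance 1] DivisionRing.toRatAlgebra

section

variable {F Ω B : Type} [Field F] [Field Ω] [Field B] [Algebra ℚ F] [Algebra F Ω] [Algebra ℚ Ω]
  [Algebra ℚ B] [IsScalarTower ℚ F Ω] [IsAlgClosed Ω] [Algebra.IsAlgebraic F Ω]
  [IsAlgClosure ℚ B]
  {C : Type} [Field C] [Algebra ℚ_[2] C] [Algebra ℚ C] [IsScalarTower ℚ ℚ_[2] C]
  [IsAlgClosure ℚ_[2] C]

theorem genT (hM : S_MAIN) {d : ℚ} (hd0 : d ≠ 0) (x y : F)
    (hx : Transcendental ℚ x) (hFx : Algebra.IsAlgebraic (IntermediateField.adjoin ℚ {x}) F)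
    (hxy : algebraMap ℚ F d * y ^ 2 = x * (x - 6) * (x - 10) * (x - 15) * (x - 30) * (x + 30))
    (N : IntermediateField F Ω)
    (hN : ∀ z ∈ geomPro 2 ℚ (IntermediateField.adjoin ℚ {x, y}) Ω, z ∈ N)
    (s : GalSection ℚ F N B) (p : Plc ℚ N C) (hpv : s.GivenBy ℚ_[2] p) (q : ℚ) (hq : q ∈ BQ)
    (hpx : p.val (algebraMap F N x) (algebraMap ℚ C q))
    (hγ : ∀ l ∈ BQ, ∀ l' ∈ BQ, l ≠ q → l' ≠ q → ∀ h : N,
      h ^ 2 = algebraMap F N ((x - algebraMap ℚ F l) * (x - algebraMap ℚ F l') *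
        algebraMap ℚ F ((q - l) * (q - l'))) → ∀ σ, s.s σ h = h) :
      ∀ (g : B ≃ₐ[ℚ] B) (z : N),
        (z : Ω) ∈ geomPro 2 ℚ (IntermediateField.adjoin ℚ {x, y}) Ω →
        (s.s g z ∈ p.W ↔ z ∈ p.W) := by
  obtain ⟨F₀, hF₀⟩ : ∃ F₀ : IntermediateField ℚ F,
    F₀ = IntermediateField.adjoin ℚ {x, y} := ⟨_, rfl⟩
  have hxm : x ∈ F₀ := by
    rw [hF₀]; exact IntermediateField.subset_adjoin ℚ _ (by simp)
  have hym : y ∈ F₀ := by
    rw [hF₀]; exact IntermediateField.subset_adjoin ℚ _ (by simp)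
  rw [← hF₀] at hN ⊢
  haveI hFF : Algebra.IsAlgebraic F₀ F :=
    alg_sub hFx F₀ one_ne_zero (by rw [pow_one]; exact hxm)
  haveI hFΩ : Algebra.IsAlgebraic F₀ Ω := Algebra.IsAlgebraic.trans F₀ F Ω
  have htop : IntermediateField.adjoin ℚ {(⟨x, hxm⟩ : F₀), ⟨y, hym⟩} =
      (⊤ : IntermediateField ℚ F₀) := by
    apply IntermediateField.map_injective F₀.val
    rw [IntermediateField.adjoin_map, Set.image_pair, ← AlgHom.fieldRange_eq_map,
      IntermediateField.fieldRange_val]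
    exact hF₀.symm
  have hx0 : Transcendental ℚ (⟨x, hxm⟩ : F₀) := by
    rw [← transcendental_algebraMap_iff (R := ℚ) (A := F) (algebraMap F₀ F).injective]
    exact hx
  have hxy0 : algebraMap ℚ F₀ d * (⟨y, hym⟩ : F₀) ^ 2 =
      (⟨x, hxm⟩ : F₀) * ((⟨x, hxm⟩ : F₀) - 6) * ((⟨x, hxm⟩ : F₀) - 10) *
        ((⟨x, hxm⟩ : F₀) - 15) * ((⟨x, hxm⟩ : F₀) - 30) * ((⟨x, hxm⟩ : F₀) + 30) := by
    apply Subtype.ext
    exact hxy
  have halg : Algebra.IsAlgebraic (IntermediateField.adjoin ℚ {(⟨x, hxm⟩ : F₀)}) F₀ :=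
    alg_of_eqn (k := ℚ) two_pos (X * (X - 6) * (X - 10) * (X - 15) * (X - 30) * (X + 30)) d hd0
      (⟨x, hxm⟩ : F₀) ⟨y, hym⟩ (by
      simp only [map_mul, map_sub, map_add, aeval_X, map_ofNat]
      exact hxy0) htop
  haveI : IsAlgClosure F₀ Ω := ⟨inferInstance, inferInstance⟩
  obtain ⟨-, hst⟩ := a_inrt 2 ℚ F₀ Ω (⟨x, hxm⟩ : F₀) hx0 halg
  -- the restriction
  obtain ⟨Φ, hΦc, hΦ⟩ := Pool.Agent.Y674.PS.restr' (F₀ := F₀) (Ω₀ := Ω) (F := F) (Ω := Ω)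
    (algebraMap F₀ F) (RingHom.id Ω) (fun a => rfl) (geomPro 2 ℚ F₀ Ω) N hN (fun σ z hz =>
      ⟨σ z, hst (σ.restrictScalars F₀) z hz, rfl⟩)
  have hΦ' : ∀ (e : N ≃ₐ[F] N) (z : N) (w : geomPro 2 ℚ F₀ Ω), (w : Ω) = (z : Ω) →
      ((Φ e w : geomPro 2 ℚ F₀ Ω) : Ω) = ((e z : N) : Ω) := hΦ
  -- the algebraic closures
  haveI : IsScalarTower ℚ N Ω := IsScalarTower.of_algebraMap_eq fun _ => rfl
  obtain ⟨eB, heB⟩ := exists_eB (Ω := Ω) ((IsScalarTower.toAlgHom ℚ N Ω).comp s.j)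
  have heB' : ∀ b, ((s.j b : N) : Ω) = ((eB b : algebraicClosure ℚ Ω) : Ω) := fun b => (heB b).symm
  let j₀ : algebraicClosure ℚ Ω →ₐ[ℚ] geomPro 2 ℚ F₀ Ω :=
    { toFun := fun z => ⟨(z : Ω), const_geomPro 2 ℚ z⟩
      map_one' := rfl
      map_mul' := fun _ _ => rfl
      map_zero' := rfl
      map_add' := fun _ _ => rfl
      commutes' := fun c => rfl }
  have hj₀ : ∀ z, ((j₀ z : geomPro 2 ℚ F₀ Ω) : Ω) = (z : Ω) := fun z => rfl
  let s₀ : GalSection ℚ F₀ (geomPro 2 ℚ F₀ Ω) (algebraicClosure ℚ Ω) :=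
    { j := j₀
      s := (Φ.comp s.s).comp (AlgEquiv.autCongr eB.symm : _ →* _)
      cont := (hΦc.comp s.cont).comp (Pool.Agent.Y674.PS.conj_cont eB.symm)
      sec := by
        intro σ z
        apply Subtype.ext
        have h1 := hΦ' (s.s (AlgEquiv.autCongr eB.symm σ)) (s.j (eB.symm z)) (j₀ z) (by
          rw [heB', eB.apply_symm_apply, hj₀])
        have h2 : (AlgEquiv.autCongr eB.symm σ) (eB.symm z) = eB.symm (σ z) := by
          change eB.symm (σ (eB (eB.symm z))) = _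
          rw [eB.apply_symm_apply]
        rw [s.sec, h2, heB', eB.apply_symm_apply] at h1
        exact h1 }
  have hs₀ : ∀ σ (z : N) (w : geomPro 2 ℚ F₀ Ω), (w : Ω) = (z : Ω) →
      ((s₀.s σ w : geomPro 2 ℚ F₀ Ω) : Ω) =
        ((s.s (AlgEquiv.autCongr eB.symm σ) z : N) : Ω) := fun σ z w h => hΦ' _ z w h
  -- the place
  let i : geomPro 2 ℚ F₀ Ω →+* N :=
    { toFun := fun w => ⟨(w : Ω), hN _ w.2⟩
      map_one' := rfl
      map_mul' := fun _ _ => rfl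
      map_zero' := rfl
      map_add' := fun _ _ => rfl }
  have hi : ∀ w, ((i w : N) : Ω) = (w : Ω) := fun w => rfl
  have hiK : ∀ c : ℚ, i (algebraMap ℚ (geomPro 2 ℚ F₀ Ω) c) = algebraMap ℚ N c := fun c =>
    Subtype.ext rfl
  have his : ∀ σ w, i (s₀.s σ w) = s.s (AlgEquiv.autCongr eB.symm σ) (i w) := fun σ w =>
    Subtype.ext (hs₀ σ (i w) w rfl)
  have hij : ∀ z, i (j₀ z) = s.j (eB.symm z) := fun z => by
    apply Subtype.ext
    rw [hi, hj₀, heB', eB.apply_symm_apply]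
  have hpv₀ : s₀.GivenBy ℚ_[2] (resPlc i hiK p) := by
    intro τ σ h w c hw
    rw [resPlc_val] at hw ⊢
    rw [his]
    refine hpv τ _ (fun z c' hz => ?_) _ _ hw
    have h1 := h (eB z) c' (by
      rw [resPlc_val]
      change p.val (i (j₀ (eB z))) c'
      rw [hij, eB.symm_apply_apply]
      exact hz)
    rw [resPlc_val] at h1
    change p.val (i (j₀ (σ (eB z)))) (τ c') at h1
    rw [hij] at h1
    exact h1
  have hiF : ∀ z : F₀, i (algebraMap F₀ (geomPro 2 ℚ F₀ Ω) z) = algebraMap F N (z : F) := fun z =>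
    Subtype.ext rfl
  have h2 := baseT (C := C) hM hd0 _ _ hx0 htop hxy0 s₀ hj₀ (resPlc i hiK p) hpv₀ q hq (by
      rw [resPlc_val, hiF]
      exact hpx) (by
      intro l hl l' hl' hlq hlq' h hh σ
      apply Subtype.ext
      rw [hs₀ σ (i h) h rfl, hγ l hl l' hl' hlq hlq' (i h) (by
        rw [← map_pow, hh, hiF]
        rfl)]
      exact hi h)
  intro g z hz
  have h3 := h2 (AlgEquiv.autCongr eB g) ⟨(z : Ω), hz⟩
  rw [resPlc_mem, resPlc_mem, his] at h3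
  have h4 : i ⟨(z : Ω), hz⟩ = z := Subtype.ext rfl
  have h5 : AlgEquiv.autCongr eB.symm (AlgEquiv.autCongr eB g) = g := by
    ext b
    change eB.symm (eB (g (eB.symm (eB b)))) = g b
    rw [eB.symm_apply_apply, eB.symm_apply_apply]
  rwa [h4, h5] at h3

end

end Pool.Agent.Zk95.TD
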